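import Pool.Agent.H15.FLD.Targets
import Pool.Agent.H53.MC.LX

/-!
MP_c62aed_lc, row Y0 of fl3_modules (after row YC of helper5): few y violate s0 + 1 half clauses.
-/

set_option autoImplicit false

namespace Pool.Agent.H91.FLD

open Finset
open Pool.Agent.H15.FLC Pool.Agent.H15.FLD

theorem pf_Y0 : T_Y0 := by
  classical
  intro n k m H' w s₀ hH hwn T hT
  rw [Nat.card_eq_fintype_card, Fintype.card_subtype]
  rcases (univ.filter fun y : Fin n → Bool => ∀ c ∈ T, c ∈ RY H' y).eq_empty_or_nonempty with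
    h0 | ⟨y₀, hy₀⟩
  · rw [h0, card_empty]
    exact Nat.zero_le _
  have hy₀' : ∀ c ∈ T, Violates (H' c) y₀ := (mem_filter.1 hy₀).2
  obtain ⟨A, hA⟩ : ∃ A : Finset (Fin n), A = T.biUnion fun c => (H' c).1.1 := ⟨_, rfl⟩
  have hsub : ∀ c ∈ T, (H' c).1.1 ⊆ A := by
    intro c hc i hi
    rw [hA]
    exact mem_biUnion.2 ⟨c, hc, hi⟩
  by_cases hw : A.card ≤ w + k
  · exfalso
    have h1 := hH A hw y₀
    have h2 : T.card ≤ Nat.card {c // InsC H' (A, y₀) c} := by
      rw [Nat.card_eq_fintype_card, Fintype.card_subtype]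
      exact card_le_card fun c hc => mem_filter.2 ⟨mem_univ _, hsub c hc, hy₀' c hc⟩
    omega
  · have h1 : (univ.filter fun y : Fin n → Bool => ∀ c ∈ T, c ∈ RY H' y) ⊆
        Pool.Agent.H53.MC.RA univ A y₀ := by
      intro y hy
      have hy' : ∀ c ∈ T, Violates (H' c) y := (mem_filter.1 hy).2
      refine mem_filter.2 ⟨mem_univ _, fun a ha => ?_⟩
      rw [hA] at ha
      obtain ⟨c, hc, hac⟩ := mem_biUnion.1 ha
      have h2 := hy' c hc a hac
      have h3 := hy₀' c hc a hac
      revert h2 h3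
      cases y a <;> cases y₀ a <;> cases (H' c).2 a <;> simp
    refine (card_le_card h1).trans ((Pool.Agent.H53.MC.card_agree A y₀ univ).trans ?_)
    exact Nat.pow_le_pow_right (by norm_num) (by omega)

end Pool.Agent.H91.FLD
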